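import Pool.Agent.Q62.CC.Stm

set_option autoImplicit false

/-!
Project CC (helper62), statement `S_ARG`: the angle is smooth on the cut space, with the usual
derivatives.
-/

open Set Filter Topology
open scoped ContDiff

namespace Pool.Agent.Q259.CC

open Pool.Agent.Q62.CC
open Pool.Agent.Q61.NC (Sp pd)

/-- the linear map `x ↦ x j + i x k` -/
noncomputable def LL {d : ℕ} (j k : Fin d) : Sp d →L[ℝ] ℂ :=
  (EuclideanSpace.proj j : Sp d →L[ℝ] ℝ).smulRight (1 : ℂ) +
    (EuclideanSpace.proj k : Sp d →L[ℝ] ℝ).smulRight Complex.I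

lemma LL_apply {d : ℕ} (j k : Fin d) (x : Sp d) : LL j k x = ⟨x j, x k⟩ := by
  apply Complex.ext <;> simp [LL]

lemma LL_mem {d : ℕ} (j k : Fin d) (x : Sp d) :
    LL j k x ∈ Complex.slitPlane ↔ x ∈ cut j k := by
  rw [LL_apply]
  simp [Complex.slitPlane, cut]

lemma arg_eq {d : ℕ} (j k : Fin d) :
    (fun x : Sp d => Complex.arg ⟨x j, x k⟩) =
      fun x => Complex.imCLM (Complex.log (LL j k x)) := by
  funext x
  rw [LL_apply]
  simp [Complex.log_im]

lemma cd {d : ℕ} (j k : Fin d) {x : Sp d} (hx : x ∈ cut j k) :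
    ContDiffAt ℝ ∞ (fun x : Sp d => Complex.arg ⟨x j, x k⟩) x := by
  rw [arg_eq]
  have h1 : ContDiffAt ℝ ∞ Complex.log (LL j k x) :=
    (Complex.contDiffAt_log ((LL_mem j k x).2 hx)).restrict_scalars ℝ
  exact Complex.imCLM.contDiff.contDiffAt.comp x
    (h1.comp x (LL j k).contDiff.contDiffAt)

lemma hd {d : ℕ} (j k : Fin d) {x : Sp d} (hx : x ∈ cut j k) (v : Sp d) :
    fderiv ℝ (fun x : Sp d => Complex.arg ⟨x j, x k⟩) x v =
      ((LL j k x)⁻¹ * LL j k v).im := by
  rw [arg_eq]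
  have h1 : HasFDerivAt Complex.log
      ((ContinuousLinearMap.toSpanSingleton ℂ ((LL j k x)⁻¹) : ℂ →L[ℂ] ℂ).restrictScalars ℝ)
      (LL j k x) :=
    (Complex.hasStrictDerivAt_log ((LL_mem j k x).2 hx)).hasDerivAt.hasFDerivAt.restrictScalars ℝ
  have h2 := Complex.imCLM.hasFDerivAt.comp x (h1.comp x (LL j k).hasFDerivAt)
  have h3 := h2.fderiv
  have h4 : (⇑Complex.imCLM ∘ Complex.log ∘ ⇑(LL j k)) =
      fun x => Complex.imCLM (Complex.log (LL j k x)) := rfl
  rw [h4] at h3
  rw [h3]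
  simp [mul_comm]

theorem t_ARG : S_ARG := by
  intro d j k hjk
  have hopen : IsOpen (cut j k) := by
    have : cut j k = (LL j k) ⁻¹' Complex.slitPlane := by
      ext x
      exact (LL_mem j k x).symm
    rw [this]
    exact Complex.isOpen_slitPlane.preimage (LL j k).continuous
  refine ⟨hopen, fun x hx => (cd j k hx).contDiffWithinAt, fun x hx i => ?_⟩
  unfold pd
  rw [hd j k hx, LL_apply, LL_apply]
  have hkj : k ≠ j := hjk.symm
  by_cases hij : i = j
  · subst hij
    simp [Complex.inv_im, Complex.inv_re, Complex.normSq_apply, N2, hkj, pow_two, neg_div]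
  · by_cases hik : i = k
    · subst hik
      simp [Complex.inv_im, Complex.inv_re, Complex.normSq_apply, N2, hij, pow_two, Ne.symm hij]
    · simp [hij, hik, Ne.symm hij, Ne.symm hik]

end Pool.Agent.Q259.CC
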